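import Mathlib
import Pool.Agent.Lib.MP_1cc3c1_an.Main

set_option autoImplicit false

/-!
A separable simple unital C*-algebra whose automorphism group is not pseudoperiodic.
-/

namespace Pool.Agent.Results.MP_1cc3c1_an.NotPseudoperiodic

open Filter Topology

/-- The positive cone of a C*-algebra: the elements of the form `y* y`. -/
def posCone (D : Type) [CStarAlgebra D] : Set D := {a | ∃ y : D, a = star y * y}

/-- Cuntz subequivalence of `b` to `c`: there is a sequence `v n` in `D` with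
`‖v n * c * (v n)* - b‖ → 0`. -/
def CuntzSub {D : Type} [CStarAlgebra D] (b c : D) : Prop :=
  ∃ v : ℕ → D, Tendsto (fun n => ‖v n * c * star (v n) - b‖) atTop (𝓝 0)

/-- A set `S` of automorphisms of `D` is pseudoperiodic if for every nonzero `a` in the positive
cone there is a nonzero `b` in the positive cone which is Cuntz subequivalent to `α a` for all
`α ∈ S` and for `α = id`. -/
def Pseudoperiodic (D : Type) [CStarAlgebra D] (S : Set (D ≃⋆ₐ[ℂ] D)) : Prop :=
  ∀ a ∈ posCone D, a ≠ 0 → ∃ b ∈ posCone D, b ≠ 0 ∧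
    ∀ α ∈ insert (StarAlgEquiv.refl ℂ D) S, CuntzSub b (α a)

/-- There is a separable simple unital C*-algebra `D` such that the whole group of the
automorphisms of `D` is not pseudoperiodic; even the set of the powers `σ ^ n`, `n = 0, 1, ...`,
of one single automorphism `σ` of `D` is not pseudoperiodic. -/
theorem result : ∃ (D : Type) (_ : CStarAlgebra D),
    TopologicalSpace.SeparableSpace D ∧ IsSimpleRing D ∧
    ¬ Pseudoperiodic D Set.univ ∧
    ∃ σ : D ≃⋆ₐ[ℂ] D, ¬ Pseudoperiodic D {α | ∃ n : ℕ, ∀ d, α d = σ^[n] d} := by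
  obtain ⟨D, hD, _, _, hsep, hsim, σ, a, ha, ha0, h⟩ := Pool.Agent.Lib.MP_1cc3c1_an.main
  have hpow : ∀ n : ℕ, ∃ α : D ≃⋆ₐ[ℂ] D, ∀ d, α d = σ^[n] d := by
    intro n
    induction n with
    | zero => exact ⟨StarAlgEquiv.refl ℂ D, fun d => rfl⟩
    | succ n ih =>
      obtain ⟨α, hα⟩ := ih
      refine ⟨α.trans σ, fun d => ?_⟩
      rw [Function.iterate_succ_apply', ← hα]
      rfl
  have key : ¬ Pseudoperiodic D {α | ∃ n : ℕ, ∀ d, α d = σ^[n] d} := by
    intro hps
    obtain ⟨b, hb, hb0, hS⟩ := hps a (CStarAlgebra.nonneg_iff_eq_star_mul_self.1 ha) ha0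
    obtain ⟨n, hn⟩ := h b (CStarAlgebra.nonneg_iff_eq_star_mul_self.2 hb) hb0
    obtain ⟨α, hα⟩ := hpow n
    have h1 := hS α (Set.mem_insert_of_mem _ ⟨n, hα⟩)
    rw [hα] at h1
    exact hn h1
  refine ⟨D, hD, hsep, hsim, fun hps => key ?_, σ, key⟩
  intro a' ha' ha0'
  obtain ⟨b, hb, hb0, hS⟩ := hps a' ha' ha0'
  exact ⟨b, hb, hb0, fun α _ => hS α (Set.mem_insert_of_mem _ (Set.mem_univ α))⟩

end Pool.Agent.Results.MP_1cc3c1_an.NotPseudoperiodic
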